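import Pool.Agent.W79.ST.Basic

/-!
Project ST: the greedy choice of the named vertices.
-/

set_option autoImplicit false

namespace Pool.Agent.W539.ST.Greedy

open Pool.Agent.W79.ST
open scoped Classical

variable {V : Type}

/-- pointwise stabiliser of `Y` in `C` -/
def DY (C : Subgroup (Equiv.Perm V)) (Y : Finset V) : Subgroup (Equiv.Perm V) where
  carrier := {σ | σ ∈ C ∧ ∀ y ∈ Y, σ y = y}
  mul_mem' := by
    rintro a b ⟨ha, ha'⟩ ⟨hb, hb'⟩
    exact ⟨C.mul_mem ha hb, fun y hy => by rw [Equiv.Perm.mul_apply, hb' y hy, ha' y hy]⟩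
  one_mem' := ⟨C.one_mem, fun y _ => rfl⟩
  inv_mem' := by
    rintro a ⟨ha, ha'⟩
    refine ⟨C.inv_mem ha, fun y hy => ?_⟩
    exact (Equiv.symm_apply_eq a).2 (ha' y hy).symm

theorem mem_DY {C : Subgroup (Equiv.Perm V)} {Y : Finset V} {σ : Equiv.Perm V} :
    σ ∈ DY C Y ↔ σ ∈ C ∧ ∀ y ∈ Y, σ y = y := Iff.rfl

theorem DY_empty (C : Subgroup (Equiv.Perm V)) : DY C ∅ = C := by
  ext σ
  simp [mem_DY]

theorem DY_insert (C : Subgroup (Equiv.Perm V)) (Y : Finset V) (v : V) :
    DY C (insert v Y) = stb (DY C Y) v := by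
  ext σ
  rw [mem_stb, mem_DY, mem_DY, Finset.forall_mem_insert]
  tauto

theorem main (h : S_PSI) : S_GREEDY := by
  obtain ⟨-, h2, h3, -, -, -⟩ := h
  intro V _ C
  let Q : Finset (Finset V) := Finset.univ.filter (fun Y =>
    Real.logb 2 (Nat.card C) - Real.logb 2 (Nat.card (DY C Y)) ≤ Psi C - Psi (DY C Y))
  have hne : Q.Nonempty := ⟨∅, by simp [Q, DY_empty]⟩
  obtain ⟨Y, hY, hmin⟩ := Finset.exists_min_image Q (fun Y => Nat.card (DY C Y)) hne
  have hYQ : Real.logb 2 (Nat.card C) - Real.logb 2 (Nat.card (DY C Y))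
      ≤ Psi C - Psi (DY C Y) := (Finset.mem_filter.1 hY).2
  have hposC : (0 : ℝ) < Nat.card C := by exact_mod_cast Nat.card_pos
  have hposD : ∀ D : Subgroup (Equiv.Perm V), (0 : ℝ) < Nat.card D := fun D => by
    exact_mod_cast Nat.card_pos
  refine ⟨DY C Y, fun σ hσ => (mem_DY.1 hσ).1, ?_, ?_, ?_⟩
  · intro v hv
    by_contra hcon
    rw [not_lt] at hcon
    have hc := card_eq_os_mul (DY C Y) v
    have hos : (0 : ℝ) < os (DY C Y) v := by
      have : 0 < os (DY C Y) v := by omega
      exact_mod_cast this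
    have hlog : Real.logb 2 (Nat.card (DY C Y)) = Real.logb 2 (os (DY C Y) v)
        + Real.logb 2 (Nat.card (stb (DY C Y) v)) := by
      rw [hc, Nat.cast_mul, Real.logb_mul hos.ne' (hposD _).ne']
    have hmem : insert v Y ∈ Q := by
      refine Finset.mem_filter.2 ⟨Finset.mem_univ _, ?_⟩
      rw [DY_insert]
      linarith
    have h5 := hmin _ hmem
    rw [DY_insert] at h5
    have h6 : 0 < Nat.card (stb (DY C Y) v) := Nat.card_pos
    rw [hc] at h5
    nlinarith
  · intro σ hσ hfix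
    refine mem_DY.2 ⟨hσ, fun y hy => hfix y fun δ hδ => (mem_DY.1 hδ).2 y hy⟩
  · have hPC : Psi C ≤ 19 * Fintype.card V := by
      unfold Psi
      calc ∑ v : V, psi (Fintype.card V) (os C v) ≤ ∑ _v : V, (19 : ℝ) :=
            Finset.sum_le_sum fun v _ => h3 _ _
        _ = 19 * Fintype.card V := by
            rw [Finset.sum_const, Finset.card_univ, nsmul_eq_mul]
            ring
    have hPD : 0 ≤ Psi (DY C Y) := Finset.sum_nonneg fun v _ => h2 _ _
    have hl : Real.logb 2 (Nat.card C) ≤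
        Real.logb 2 (2 ^ (19 * Fintype.card V) * Nat.card (DY C Y)) := by
      rw [Real.logb_mul (by positivity) (hposD _).ne']
      have e : Real.logb 2 ((2 : ℝ) ^ (19 * Fintype.card V)) = 19 * Fintype.card V := by
        rw [Real.logb_pow, Real.logb_self_eq_one (by norm_num)]
        push_cast
        ring
      rw [e]
      linarith
    have h7 := (Real.logb_le_logb (by norm_num) hposC (by
      have := hposD (DY C Y)
      positivity)).1 hl
    exact_mod_cast h7

end Pool.Agent.W539.ST.Greedy
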