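import Pool.Agent.W79.ST.Basic

/-!
Project ST: the presentation of a layout describes the graph.
-/

set_option autoImplicit false

namespace Pool.Agent.W539.ST.Iso

open Pool.Agent.W79.ST
open scoped Classical

variable {V : Type}

/-- the map from the expansion to the vertices -/
def fm (D : Subgroup (Equiv.Perm V)) (As : Set V) (δ : V → ℕ → Equiv.Perm V) :
    {z : V // ∀ σ ∈ D, σ z = z} ⊕ As × ℕ → V
  | .inl z => z.1
  | .inr q => δ q.1.1 q.2 q.1.1

theorem main (hB : S_BASE) : S_ISO := by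
  intro V _ G D hD As m δ hL h
  obtain ⟨hb1, hb2, hb3, hb4, hb5⟩ := hB V G D hD
  have hos : ∀ a ∈ As, ∀ i, 2 ≤ os D (δ a i a) := fun a ha i => by
    rw [os_apply (hL.mem a ha i)]
    exact hL.nf a ha
  -- adjacency
  have hadj : ∀ p q : {z : V // ∀ σ ∈ D, σ z = z} ⊕ As × ℕ,
      p ∈ VS (Z := {z : V // ∀ σ ∈ D, σ z = z}) (LP G D As m h).m →
      q ∈ VS (Z := {z : V // ∀ σ ∈ D, σ z = z}) (LP G D As m h).m →
      (G.Adj (fm D As δ p) (fm D As δ q) ↔ (xgr (LP G D As m h)).Adj p q) := by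
    rintro (z | ⟨a, i⟩) (w | ⟨b, j⟩) hp hq
    · exact Iff.rfl
    · have hmem := hL.mem b.1 b.2 j
      have h1 := hD hmem z.1 b.1
      rw [z.2 _ hmem] at h1
      exact h1
    · have hmem := hL.mem a.1 a.2 i
      have h1 := hD hmem a.1 w.1
      rw [w.2 _ hmem] at h1
      exact h1
    · have hi : i < m a.1 := hp _ rfl
      have hj : j < m b.1 := hq _ rfl
      have ha := hL.mem a.1 a.2 i
      have hbm := hL.mem b.1 b.2 j
      change G.Adj (δ a.1 i a.1) (δ b.1 j b.1) ↔
        ((i = j → G.Adj a.1 b.1) ∧ (i ≠ j → base G D a.1 b.1))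
      by_cases hij : i = j
      · subst hij
        simp only [forall_true_left, ne_eq, not_true_eq_false, false_imp_iff, and_true]
        by_cases hab : b.1 ∈ comp G D a.1
        · have hd : δ b.1 i = δ a.1 i := (hL.cl a.1 a.2 b.1 hab).2.2 i
          rw [hd]
          exact hD ha a.1 b.1
        · have hne : a.1 ≠ b.1 := fun hh => hab (hh ▸ mem_comp_self G D a.1)
          rw [adj_iff_base hne hab]
          have hnc : δ b.1 i b.1 ∉ comp G D (δ a.1 i a.1) := by
            intro hh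
            have hh2 := (hL.inj b.1 b.2 a.1 a.2 i hj i hi hh).2
            exact hab (comp_symm hb3 hh2)
          have hne2 : δ a.1 i a.1 ≠ δ b.1 i b.1 := fun hh =>
            hnc (hh ▸ mem_comp_self G D (δ a.1 i a.1))
          rw [adj_iff_base hne2 hnc]
          exact hb2 _ ha _ hbm _ _
      · have hnc : δ b.1 j b.1 ∉ comp G D (δ a.1 i a.1) := by
          intro hh
          exact hij (hL.inj b.1 b.2 a.1 a.2 j hj i hi hh).1.symm
        have hne2 : δ a.1 i a.1 ≠ δ b.1 j b.1 := fun hh =>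
          hnc (hh ▸ mem_comp_self G D (δ a.1 i a.1))
        rw [adj_iff_base hne2 hnc, hb2 _ ha _ hbm]
        constructor
        · intro h1
          exact ⟨fun h2 => absurd h2 hij, fun _ => h1⟩
        · intro h1
          exact h1.2 hij
  have hinj : Function.Injective (fun w : VS (Z := {z : V // ∀ σ ∈ D, σ z = z})
      (LP G D As m h).m => fm D As δ w.1) := by
    rintro ⟨p, hp⟩ ⟨q, hq⟩ heq
    simp only at heq
    refine Subtype.ext ?_
    simp only
    rcases p with z | ⟨a, i⟩ <;> rcases q with w | ⟨b, j⟩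
    · exact congrArg Sum.inl (Subtype.ext heq)
    · exfalso
      have h1 : z.1 = δ b.1 j b.1 := heq
      have h2 := hos b.1 b.2 j
      rw [two_le_os_iff, ← h1] at h2
      exact h2 z.2
    · exfalso
      have h1 : δ a.1 i a.1 = w.1 := heq
      have h2 := hos a.1 a.2 i
      rw [two_le_os_iff, h1] at h2
      exact h2 w.2
    · have h1 : δ a.1 i a.1 = δ b.1 j b.1 := heq
      have hi : i < m a.1 := hp _ rfl
      have hj : j < m b.1 := hq _ rfl
      have h2 := hL.inj a.1 a.2 b.1 b.2 i hi j hj (h1 ▸ mem_comp_self G D _)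
      obtain ⟨h3, h4⟩ := h2
      subst h3
      have hd : δ b.1 i = δ a.1 i := (hL.cl a.1 a.2 b.1 h4).2.2 i
      rw [hd] at h1
      have h5 : a = b := Subtype.ext ((δ a.1 i).injective h1)
      rw [h5]
  have hsurj : Function.Surjective (fun w : VS (Z := {z : V // ∀ σ ∈ D, σ z = z})
      (LP G D As m h).m => fm D As δ w.1) := by
    intro u
    by_cases hu : 2 ≤ os D u
    · obtain ⟨a, ha, i, hi, hd⟩ := hL.surj u hu
      refine ⟨⟨Sum.inr (⟨a, ha⟩, i), ?_⟩, hd⟩
      intro q hq
      cases hq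
      exact hi
    · rw [two_le_os_iff, not_not] at hu
      refine ⟨⟨Sum.inl ⟨u, hu⟩, ?_⟩, rfl⟩
      intro q hq
      cases hq
  refine ⟨⟨Equiv.ofBijective _ ⟨hinj, hsurj⟩, ?_⟩, ?_, ?_⟩
  · intro p q
    exact hadj p.1 q.1 p.2 q.2
  · intro w z hw
    change fm D As δ w.1 = z.1
    rw [hw]
    rfl
  · intro w a i hw
    change fm D As δ w.1 = δ a.1 i a.1
    rw [hw]
    rfl

end Pool.Agent.W539.ST.Iso
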